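import Mathlib
import Pool.Agent.Lib.Ando.Final

set_option autoImplicit false

namespace Pool.Agent.Results.MP_b1c9a2_co.GirthFive

/-- Every finite simple cubic graph of girth at least five (connected or not, bridges allowed) has
a Strong Ando colouring, and moreover one all of whose monochromatic components have at most four
vertices. -/
theorem result {V : Type*} [Fintype V] [DecidableEq V] (G : SimpleGraph V) [DecidableRel G.Adj]
    (hG : G.IsRegularOfDegree 3) (hg : 5 ≤ G.egirth) :
    ∃ S : Finset V,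
      S.card = Sᶜ.card ∧
      Nonempty (G.induce (S : Set V) ≃g G.induce ((Sᶜ : Finset V) : Set V)) ∧
      (G.induce (S : Set V)).IsAcyclic ∧
      (G.induce ((Sᶜ : Finset V) : Set V)).IsAcyclic ∧
      (∀ v ∈ S, (S.filter (fun w => G.Adj v w)).card ≤ 2) ∧
      (∀ v ∈ Sᶜ, (Sᶜ.filter (fun w => G.Adj v w)).card ≤ 2) ∧
      (∀ c : (G.induce (S : Set V)).ConnectedComponent, c.supp.ncard ≤ 4) ∧
      (∀ c : (G.induce ((Sᶜ : Finset V) : Set V)).ConnectedComponent, c.supp.ncard ≤ 4) :=
  Pool.Agent.Lib.Ando.good_of_noTri_noSq hG (Pool.Agent.Lib.Ando.noTri_of_egirth G hg)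
    (Pool.Agent.Lib.Ando.noSq_of_egirth G hg)

end Pool.Agent.Results.MP_b1c9a2_co.GirthFive
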