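import Mathlib
import Pool.Agent.Lib.Pb1c9a2.Cover

set_option autoImplicit false

namespace Pool.Agent.Results.MP_b1c9a2_co.TwoCycleFactor

/-- Let `G` be a finite simple cubic graph with two vertex-disjoint cycles `p`, `q` that
together contain all vertices (a 2-factor with exactly two components; chords allowed, the two
lengths arbitrary). Then `G` has a Strong Ando colouring, and moreover one that is a
4-bisection. -/
theorem result {V : Type*} [Fintype V] [DecidableEq V] (G : SimpleGraph V) [DecidableRel G.Adj]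
    (hG : G.IsRegularOfDegree 3) {u w : V} (p : G.Walk u u) (q : G.Walk w w)
    (hp : p.IsCycle) (hq : q.IsCycle)
    (hdisj : ∀ v, v ∈ p.support → v ∉ q.support)
    (hcov : ∀ v, v ∈ p.support ∨ v ∈ q.support) :
    ∃ S : Finset V,
      S.card = Sᶜ.card ∧
      Nonempty (G.induce (S : Set V) ≃g G.induce ((Sᶜ : Finset V) : Set V)) ∧
      (G.induce (S : Set V)).IsAcyclic ∧
      (G.induce ((Sᶜ : Finset V) : Set V)).IsAcyclic ∧
      (∀ v ∈ S, (S.filter (fun w => G.Adj v w)).card ≤ 2) ∧
      (∀ v ∈ Sᶜ, (Sᶜ.filter (fun w => G.Adj v w)).card ≤ 2) ∧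
      (∀ c : (G.induce (S : Set V)).ConnectedComponent, c.supp.ncard ≤ 4) ∧
      (∀ c : (G.induce ((Sᶜ : Finset V) : Set V)).ConnectedComponent, c.supp.ncard ≤ 4) :=
  Pool.Agent.Lib.Pb1c9a2.good_cycles G hG p q hp hq hdisj hcov

end Pool.Agent.Results.MP_b1c9a2_co.TwoCycleFactor
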